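import Mathlib

set_option autoImplicit false

/-!
# Commuting invertible compact perturbations of `(T, T)`

Let `A = T + K₁`, `B = T + K₂` commute, `K₁`, `K₂` compact. If `T` is Fredholm of positive index, then `A` and `B`
have a common kernel vector. Otherwise for every complex `t` the operator `A + t (A - B)`, a compact
perturbation of `T`, has a finite-dimensional kernel `≠ 0`, which contains an eigenvector of the compact operator
`K = A - B`, with an eigenvalue `≠ 0`; these eigenvectors are linearly independent and there are uncountably many,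
which is impossible. For negative index the same holds for the adjoints.
-/

open Module

namespace Pool.Agent.Results.MP_b56e9d_an.IndexZeroOnly

section Banach

variable {X : Type*} [NormedAddCommGroup X] [NormedSpace ℂ X]

/-- A compact operator has no infinite linearly independent sequence of eigenvectors with eigenvalues
bounded away from zero. -/
lemma no_seq (K : X →L[ℂ] X) (hK : IsCompactOperator K) (x : ℕ → X) (hx : LinearIndependent ℂ x)
    (κ : ℕ → ℂ) (hκ : ∀ n, K (x n) = κ n • x n) (δ : ℝ) (hδ : 0 < δ) (hκδ : ∀ n, δ ≤ ‖κ n‖) :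
    False := by
  let E : ℕ → Submodule ℂ X := fun n => Submodule.span ℂ (x '' Set.Iio n)
  have hEfin : ∀ n, FiniteDimensional ℂ (E n) := fun n =>
    FiniteDimensional.span_of_finite ℂ ((Set.finite_Iio n).image x)
  have hEmono : ∀ m n, m ≤ n → E m ≤ E n := fun m n h =>
    Submodule.span_mono (Set.image_mono (Set.Iio_subset_Iio h))
  have hxn : ∀ n, x n ∉ E n := fun n => hx.notMem_span_image (by simp)
  have hEsucc : ∀ n, E (n + 1) = Submodule.span ℂ {x n} ⊔ E n := by
    intro n
    have h : Set.Iio (n + 1) = insert n (Set.Iio n) := by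
      ext i
      simp only [Set.mem_Iio, Set.mem_insert_iff]
      omega
    show Submodule.span ℂ (x '' Set.Iio (n + 1)) = _
    rw [← Submodule.span_union, Set.singleton_union, ← Set.image_insert_eq, h]
  have hKE : ∀ n, ∀ y ∈ E n, K y ∈ E n := by
    intro n y hy
    induction hy using Submodule.span_induction with
    | mem y hy =>
      obtain ⟨i, hi, rfl⟩ := hy
      rw [hκ]
      exact Submodule.smul_mem _ _ (Submodule.subset_span ⟨i, hi, rfl⟩)
    | zero => rw [map_zero]; exact Submodule.zero_mem _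
    | add a b _ _ ha hb => rw [map_add]; exact Submodule.add_mem _ ha hb
    | smul c a _ ha => rw [map_smul]; exact Submodule.smul_mem _ _ ha
  have hKE' : ∀ n, ∀ y ∈ E (n + 1), K y - κ n • y ∈ E n := by
    intro n y hy
    rw [hEsucc, Submodule.mem_sup] at hy
    obtain ⟨a, ha, z, hz, rfl⟩ := hy
    obtain ⟨c, rfl⟩ := Submodule.mem_span_singleton.mp ha
    have : K (c • x n + z) - κ n • (c • x n + z) = K z - κ n • z := by
      rw [map_add, map_smul, hκ, smul_add, smul_comm c]
      abel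
    rw [this]
    exact Submodule.sub_mem _ (hKE n z hz) (Submodule.smul_mem _ _ hz)
  obtain ⟨c, hc⟩ := NormedField.exists_one_lt_norm ℂ
  have hy : ∀ n, ∃ y ∈ E (n + 1), ‖y‖ ≤ ‖c‖ + 1 ∧ ∀ z ∈ E n, 1 ≤ ‖y - z‖ := by
    intro n
    have hcl : IsClosed (((E n).comap (E (n + 1)).subtype : Submodule ℂ (E (n + 1))) :
        Set (E (n + 1))) := by
      have := hEfin n
      exact (Submodule.closed_of_finiteDimensional (E n)).preimage continuous_subtype_val
    have hex : ∃ y : E (n + 1), y ∉ (E n).comap (E (n + 1)).subtype :=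
      ⟨⟨x n, Submodule.subset_span ⟨n, Nat.lt_succ_self n, rfl⟩⟩, hxn n⟩
    obtain ⟨⟨y, hy⟩, h1, h2⟩ := riesz_lemma_of_norm_lt hc (lt_add_one ‖c‖) hcl hex
    exact ⟨y, hy, h1, fun z hz => h2 ⟨z, hEmono n (n + 1) (Nat.le_succ n) hz⟩ hz⟩
  choose y hyE hyn hyd using hy
  have hlt : ∀ m n, m < n → δ ≤ ‖K (y n) - K (y m)‖ := by
    intro m n hmn
    have hκn : κ n ≠ 0 := fun h => by
      have := hκδ n
      rw [h, norm_zero] at this
      linarith
    have hw : (κ n)⁻¹ • (K (y m) - (K (y n) - κ n • y n)) ∈ E n := by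
      refine Submodule.smul_mem _ _ (Submodule.sub_mem _ (hKE n _ (hEmono _ _ hmn (hyE m))) ?_)
      exact hKE' n _ (hyE n)
    have h1 := hyd n _ hw
    have h2 : κ n • (y n - (κ n)⁻¹ • (K (y m) - (K (y n) - κ n • y n))) = K (y n) - K (y m) := by
      rw [smul_sub, smul_inv_smul₀ hκn]
      abel
    rw [← h2, norm_smul]
    have h3 := hκδ n
    nlinarith [norm_nonneg (κ n)]
  obtain ⟨C, hC, hC'⟩ := hK.image_closedBall_subset_compact (‖c‖ + 1)
  obtain ⟨z, -, ψ, hψ, hψz⟩ := hC.tendsto_subseq (x := fun n => K (y n))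
    (fun n => hC' ⟨y n, by simpa using hyn n, rfl⟩)
  have hcau := hψz.cauchySeq
  rw [Metric.cauchySeq_iff'] at hcau
  obtain ⟨N, hN⟩ := hcau δ hδ
  have h1 := hN (N + 1) (Nat.le_succ N)
  rw [dist_eq_norm] at h1
  exact absurd h1 (not_lt.mpr (hlt _ _ (hψ (Nat.lt_succ_self N))))

/-- The main lemma. -/
theorem joint_kernel (A K : X →L[ℂ] X) (hK : IsCompactOperator K) (hcomm : ∀ x, A (K x) = K (A x))
    (hfin : ∀ t : ℂ, FiniteDimensional ℂ (LinearMap.ker ((A + t • K : X →L[ℂ] X) : X →ₗ[ℂ] X)))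
    (hne : ∀ t : ℂ, ∃ x, x ≠ 0 ∧ A x + t • K x = 0) : ∃ x, x ≠ 0 ∧ A x = 0 ∧ K x = 0 := by
  by_contra hcon
  push Not at hcon
  have hex : ∀ t : ℂ, ∃ (v : X) (k : ℂ), v ≠ 0 ∧ k ≠ 0 ∧ K v = k • v ∧ A v = -(t * k) • v := by
    intro t
    set V := LinearMap.ker ((A + t • K : X →L[ℂ] X) : X →ₗ[ℂ] X) with hV
    have hmem : ∀ x, x ∈ V ↔ A x + t • K x = 0 := fun x => by simp [hV]
    have := hfin t
    obtain ⟨x, hx0, hx⟩ := hne t
    have : Nontrivial V := ⟨⟨⟨x, (hmem x).2 hx⟩, 0, fun h => hx0 (congrArg Subtype.val h)⟩⟩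
    have hinv : ∀ x ∈ V, (K : X →ₗ[ℂ] X) x ∈ V := by
      intro x hx
      rw [hmem] at hx ⊢
      have : A (K x) + t • K (K x) = K (A x + t • K x) := by rw [map_add, map_smul, hcomm]
      exact this.trans (by rw [hx, map_zero])
    obtain ⟨k, hk⟩ := Module.End.exists_eigenvalue ((K : X →ₗ[ℂ] X).restrict hinv)
    obtain ⟨v, hv⟩ := hk.exists_hasEigenvector
    have hv1 : K (v : X) = k • (v : X) := congrArg Subtype.val hv.apply_eq_smul
    have hv0 : (v : X) ≠ 0 := fun h => hv.2 (Subtype.ext h)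
    have hv2 : A (v : X) = -(t * k) • (v : X) := by
      have := (hmem v).1 v.2
      rw [hv1, smul_smul] at this
      rw [neg_smul]
      exact eq_neg_of_add_eq_zero_left this
    refine ⟨v, k, hv0, fun h => ?_, hv1, hv2⟩
    rw [h] at hv1 hv2
    exact hcon v hv0 (by simpa using hv2) (by simpa using hv1)
  choose v k hv0 hk0 hKv hAv using hex
  have hli : LinearIndependent ℂ v := by
    rw [linearIndependent_iff']
    intro s
    induction s using Finset.induction_on with
    | empty => simp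
    | insert t₀ s ht₀ ih =>
      intro g hg
      have h1 : ∀ t, (A + t₀ • K) (v t) = ((t₀ - t) * k t) • v t := by
        intro t
        rw [add_apply, smul_apply, hAv, hKv, smul_smul,
          ← add_smul]
        congr 1
        ring
      have h2 := congrArg (A + t₀ • K) hg
      rw [map_sum, map_zero, Finset.sum_insert ht₀, map_smul, h1, sub_self, zero_mul, zero_smul,
        smul_zero, zero_add] at h2
      have h3 : ∑ t ∈ s, (g t * ((t₀ - t) * k t)) • v t = 0 := by
        rw [← h2]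
        refine Finset.sum_congr rfl fun t _ => ?_
        rw [map_smul, h1, smul_smul]
      have h4 := ih _ h3
      have h5 : ∀ t ∈ s, g t = 0 := by
        intro t ht
        have h6 := h4 t ht
        have h7 : t₀ - t ≠ 0 := sub_ne_zero.mpr fun h => ht₀ (h ▸ ht)
        rcases mul_eq_zero.mp h6 with h | h
        · exact h
        · rcases mul_eq_zero.mp h with h | h
          · exact absurd h h7
          · exact absurd h (hk0 t)
      intro t ht
      rcases Finset.mem_insert.mp ht with rfl | ht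
      · rw [Finset.sum_insert ht₀, Finset.sum_eq_zero (fun i hi => by rw [h5 i hi, zero_smul]),
          add_zero] at hg
        exact (smul_eq_zero.mp hg).resolve_right (hv0 _)
      · exact h5 t ht
  obtain ⟨n, hn⟩ : ∃ n : ℕ, {t : ℂ | 1 / ((n : ℝ) + 1) ≤ ‖k t‖}.Infinite := by
    by_contra hc
    have h1 : (⋃ n : ℕ, {t : ℂ | 1 / ((n : ℝ) + 1) ≤ ‖k t‖}).Countable :=
      Set.countable_iUnion fun n => (Set.not_infinite.mp fun h => hc ⟨n, h⟩).countable
    have h2 : (⋃ n : ℕ, {t : ℂ | 1 / ((n : ℝ) + 1) ≤ ‖k t‖}) = Set.univ := by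
      refine Set.eq_univ_of_forall fun t => ?_
      obtain ⟨n, hn⟩ := exists_nat_one_div_lt (norm_pos_iff.mpr (hk0 t))
      exact Set.mem_iUnion.mpr ⟨n, hn.le⟩
    rw [h2] at h1
    exact not_countable_complex h1
  let e : ℕ → ℂ := fun i => (hn.natEmbedding _ i : {t : ℂ | 1 / ((n : ℝ) + 1) ≤ ‖k t‖})
  have he : Function.Injective e := fun a b hab =>
    (hn.natEmbedding _).injective (Subtype.ext hab)
  exact no_seq K hK (fun i => v (e i)) (hli.comp e he) (fun i => k (e i)) (fun i => hKv _)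
    (1 / ((n : ℝ) + 1)) (by positivity) (fun i => (hn.natEmbedding _ i).2)

lemma compact_of_finite_range (P : X →L[ℂ] X)
    (h : FiniteDimensional ℂ (LinearMap.range (P : X →ₗ[ℂ] X))) : IsCompactOperator P := by
  have hp : ProperSpace (LinearMap.range (P : X →ₗ[ℂ] X)) := FiniteDimensional.proper ℂ _
  have : IsCompactOperator (P.codRestrict _ (fun x => LinearMap.mem_range_self (P : X →ₗ[ℂ] X) x) :
      X →L[ℂ] LinearMap.range (P : X →ₗ[ℂ] X)) :=
    isCompactOperator_of_locallyCompactSpace_dom _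
  exact this.clm_comp (LinearMap.range (P : X →ₗ[ℂ] X)).subtypeL

/-- A compact perturbation of an operator of positive index has a finite-dimensional kernel `≠ 0`. Here `G` is
a generalised inverse of `T`, `P` and `Q` are the projections onto the kernel and along the range. -/
theorem ker_perturb [CompleteSpace X] (T G P Q C : X →L[ℂ] X) (hTG : ∀ x, T (G x) = x - Q x)
    (hGT : ∀ x, G (T x) = x - P x) (hPG : ∀ x, P (G x) = 0) (hTP : ∀ x, T (P x) = 0)
    (hPfin : FiniteDimensional ℂ (LinearMap.range (P : X →ₗ[ℂ] X)))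
    (hQfin : FiniteDimensional ℂ (LinearMap.range (Q : X →ₗ[ℂ] X)))
    (hlt : finrank ℂ (LinearMap.range (Q : X →ₗ[ℂ] X)) < finrank ℂ (LinearMap.range (P : X →ₗ[ℂ] X)))
    (hC : IsCompactOperator C) :
    FiniteDimensional ℂ (LinearMap.ker ((T + C : X →L[ℂ] X) : X →ₗ[ℂ] X)) ∧
      ∃ x, x ≠ 0 ∧ T x + C x = 0 := by
  have hPc := compact_of_finite_range P hPfin
  have hQc := compact_of_finite_range Q hQfin
  have hPP : ∀ x, P (P x) = P x := by
    intro x
    have h := hGT (P x)
    rw [hTP, map_zero] at h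
    exact (sub_eq_zero.mp h.symm).symm
  constructor
  · set V := LinearMap.ker ((T + C : X →L[ℂ] X) : X →ₗ[ℂ] X) with hV
    have hmem : ∀ x, x ∈ V ↔ T x + C x = 0 := fun x => by simp [hV]
    have hM : IsCompactOperator (P - G ∘L C : X →L[ℂ] X) := hPc.sub (hC.clm_comp G)
    have hfix : ∀ x ∈ V, ((P - G ∘L C : X →L[ℂ] X) : X →ₗ[ℂ] X) x = x := by
      intro x hx
      have h1 : G (T x + C x) = 0 := by rw [(hmem x).1 hx, map_zero]
      rw [map_add, hGT] at h1
      have h2 : P x - G (C x) = x - (x - P x + G (C x)) := by abel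
      show P x - G (C x) = x
      rw [h2, h1, sub_zero]
    have hinv : ∀ x ∈ V, ((P - G ∘L C : X →L[ℂ] X) : X →ₗ[ℂ] X) x ∈ V := fun x hx => by
      rw [hfix x hx]; exact hx
    have hcl : IsClosed (V : Set X) := ContinuousLinearMap.isClosed_ker (T + C)
    have h3 := IsCompactOperator.restrict (f := ((P - G ∘L C : X →L[ℂ] X) : X →ₗ[ℂ] X)) hM hinv hcl
    have h4 : (((P - G ∘L C : X →L[ℂ] X) : X →ₗ[ℂ] X).restrict hinv : V → V) = id := by
      funext x
      exact Subtype.ext (hfix x x.2)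
    rw [h4] at h3
    exact FiniteDimensional.of_isCompactOperator_id h3
  · by_contra hcon
    push Not at hcon
    have hinj : ∀ x, T x + C x = 0 → x = 0 := fun x hx => by
      by_contra h0
      exact hcon x h0 hx
    -- an injective map from the range of `Q` to the range of `P`
    obtain ⟨J, hJ⟩ : ∃ J : LinearMap.range (Q : X →ₗ[ℂ] X) →ₗ[ℂ] LinearMap.range (P : X →ₗ[ℂ] X),
        Function.Injective J := by
      refine Module.Free.exists_linearMap_injective_of_rank_lt ?_
      rw [← finrank_eq_rank, ← finrank_eq_rank]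
      exact_mod_cast hlt
    have hJs : ∃ v, v ∉ LinearMap.range J := by
      by_contra hc
      push Not at hc
      have h1 : LinearMap.range J = ⊤ := Submodule.eq_top_iff'.mpr hc
      have h2 := LinearMap.finrank_range_le J
      rw [h1, finrank_top] at h2
      omega
    obtain ⟨⟨v, w, hw⟩, hv⟩ := hJs
    let Q' : X →L[ℂ] LinearMap.range (Q : X →ₗ[ℂ] X) :=
      Q.codRestrict _ fun x => LinearMap.mem_range_self (Q : X →ₗ[ℂ] X) x
    let L : X →L[ℂ] X := G + (LinearMap.range (P : X →ₗ[ℂ] X)).subtypeL ∘L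
      (LinearMap.toContinuousLinearMap J) ∘L Q'
    have hL : ∀ x, L x = G x + (J (Q' x) : X) := fun x => rfl
    have hPJ : ∀ z, P (J z : X) = (J z : X) := by
      intro z
      obtain ⟨u, hu⟩ := (J z).2
      rw [← hu]
      exact hPP u
    have hTJ : ∀ z, T (J z : X) = 0 := by
      intro z
      rw [← hPJ, hTP]
    have hPL : ∀ x, P (L x) = (J (Q' x) : X) := by
      intro x
      rw [hL, map_add, hPG, zero_add, hPJ]
    have hTL : ∀ x, T (L x) = x - Q x := by
      intro x
      rw [hL, map_add, hTG, hTJ, add_zero]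
    have hLinj : ∀ x, L x = 0 → x = 0 := by
      intro x hx
      have h1 : J (Q' x) = 0 := by
        apply Subtype.ext
        rw [← hPL, hx, map_zero]
        rfl
      have h2 : Q' x = 0 := hJ (by rw [h1, map_zero])
      have h3 : Q x = 0 := congrArg Subtype.val h2
      have h4 := hTL x
      rw [hx, map_zero, h3, sub_zero] at h4
      exact h4.symm
    have hM : IsCompactOperator (Q - C ∘L L : X →L[ℂ] X) := hQc.sub (hC.comp_clm L)
    have h1 : (1 : ℂ) ∈ resolventSet ℂ (Q - C ∘L L : X →L[ℂ] X) := by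
      refine (IsCompactOperator.hasEigenvalue_or_mem_resolventSet hM one_ne_zero).resolve_left ?_
      intro hev
      obtain ⟨x, hx⟩ := hev.exists_hasEigenvector
      have h2 : Q x - C (L x) = x := by
        have := hx.apply_eq_smul
        rw [one_smul] at this
        exact this
      refine hx.2 (hLinj x (hinj _ ?_))
      rw [hTL]
      have h3 : x - Q x + C (L x) = x - (Q x - C (L x)) := by abel
      rw [h3, h2, sub_self]
    have h2 : ∀ y, ∃ x, x - (Q x - C (L x)) = y := by
      have h3 := spectrum.mem_resolventSet_iff.mp h1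
      rw [ContinuousLinearMap.isUnit_iff_bijective] at h3
      intro y
      obtain ⟨x, hx⟩ := h3.2 y
      refine ⟨x, ?_⟩
      rw [← hx]
      simp
    obtain ⟨z, hz⟩ := h2 (T v + C v)
    have h3 : v - L z = 0 := by
      apply hinj
      have h4 : T v + C v = T (L z) + C (L z) := by
        rw [hTL, ← hz]
        abel
      rw [map_sub, map_sub]
      have : T v - T (L z) + (C v - C (L z)) = (T v + C v) - (T (L z) + C (L z)) := by abel
      rw [this, h4, sub_self]
    have h4 : v = L z := sub_eq_zero.mp h3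
    have h5 : P v = v := by
      have hw' : P w = v := hw
      rw [← hw', hPP]
    refine hv ⟨Q' z, Subtype.ext ?_⟩
    show (J (Q' z) : X) = v
    rw [← hPL, ← h4, h5]

end Banach

section Hilbert

variable {H : Type*} [NormedAddCommGroup H] [InnerProductSpace ℂ H] [CompleteSpace H]

/-- Fredholm operators: closed range, finite-dimensional kernel and cokernel. -/
structure IsFredholmOp (T : H →L[ℂ] H) : Prop where
  closed : IsClosed (LinearMap.range (T : H →ₗ[ℂ] H) : Set H)
  ker : FiniteDimensional ℂ (LinearMap.ker (T : H →ₗ[ℂ] H))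
  coker : FiniteDimensional ℂ (H ⧸ LinearMap.range (T : H →ₗ[ℂ] H))

/-- Taylor invertible commuting pairs (of additive maps): the Koszul complex is exact. -/
structure IsInvertiblePair {M : Type*} [AddCommGroup M] (A B : M → M) : Prop where
  comm : ∀ x, A (B x) = B (A x)
  inj : ∀ x, A x = 0 → B x = 0 → x = 0
  surj : ∀ y, ∃ u v, A u + B v = y
  exact : ∀ x y, A y = B x → ∃ z, x = A z ∧ y = B z

/-- The same for operators. -/
structure OpInvertiblePair (A B : H →L[ℂ] H) : Prop where
  comm : ∀ x, A (B x) = B (A x)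
  inj : ∀ x, A x = 0 → B x = 0 → x = 0
  surj : ∀ y, ∃ u v, A u + B v = y
  exact : ∀ x y, A y = B x → ∃ z, x = A z ∧ y = B z

/-- There are compact `K₁`, `K₂` for which `T + K₁`, `T + K₂` commute and form an invertible pair. -/
def HasInvertiblePerturbation (T : H →L[ℂ] H) : Prop :=
  ∃ K₁ K₂ : H →L[ℂ] H, IsCompactOperator K₁ ∧ IsCompactOperator K₂ ∧
    IsInvertiblePair (fun x => T x + K₁ x) (fun x => T x + K₂ x)

/-- The dimension of the kernel. -/
noncomputable def nul (T : H →L[ℂ] H) : ℕ := finrank ℂ (LinearMap.ker (T : H →ₗ[ℂ] H))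

/-- The codimension of the range. -/
noncomputable def codim (T : H →L[ℂ] H) : ℕ := finrank ℂ (H ⧸ LinearMap.range (T : H →ₗ[ℂ] H))

open scoped InnerProductSpace

lemma exists_geninv (T : H →L[ℂ] H) (hT : IsFredholmOp T) :
    ∃ G P Q : H →L[ℂ] H, (∀ x, T (G x) = x - Q x) ∧ (∀ x, G (T x) = x - P x) ∧
      (∀ x, P (G x) = 0) ∧ (∀ x, G (Q x) = 0) ∧ (∀ x, T (P x) = 0) ∧ (∀ x, Q (T x) = 0) ∧
      (∀ x y, ⟪P x, y⟫_ℂ = ⟪x, P y⟫_ℂ) ∧ (∀ x y, ⟪Q x, y⟫_ℂ = ⟪x, Q y⟫_ℂ) ∧
      LinearMap.range (P : H →ₗ[ℂ] H) = LinearMap.ker (T : H →ₗ[ℂ] H) ∧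
      LinearMap.range (Q : H →ₗ[ℂ] H) = (LinearMap.range (T : H →ₗ[ℂ] H))ᗮ := by
  set N := LinearMap.ker (T : H →ₗ[ℂ] H) with hN
  set R := LinearMap.range (T : H →ₗ[ℂ] H) with hR
  have hNc : CompleteSpace N := (ContinuousLinearMap.isClosed_ker T).completeSpace_coe
  have hRc : CompleteSpace R := hT.closed.completeSpace_coe
  let T₁ : (Nᗮ : Submodule ℂ H) →L[ℂ] R :=
    (T.codRestrict R fun x => LinearMap.mem_range_self (T : H →ₗ[ℂ] H) x) ∘L (Nᗮ).subtypeL
  have hT₁ : ∀ x, (T₁ x : H) = T x := fun x => rfl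
  have hinj : LinearMap.ker (T₁ : (Nᗮ : Submodule ℂ H) →ₗ[ℂ] R) = ⊥ := by
    rw [LinearMap.ker_eq_bot']
    intro x hx
    have h1 : (x : H) ∈ N := by
      have := congrArg Subtype.val hx
      exact this
    have h2 : (x : H) ∈ N ⊓ Nᗮ := ⟨h1, x.2⟩
    rw [Submodule.inf_orthogonal_eq_bot, Submodule.mem_bot] at h2
    exact Subtype.ext h2
  have hdec : ∀ x : H, ∃ n ∈ N, ∃ m ∈ (Nᗮ : Submodule ℂ H), x = n + m := by
    intro x
    exact ⟨_, N.starProjection_apply_mem x, _, (Nᗮ).starProjection_apply_mem x,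
      (N.starProjection_add_starProjection_orthogonal x).symm⟩
  have hsurj : LinearMap.range (T₁ : (Nᗮ : Submodule ℂ H) →ₗ[ℂ] R) = ⊤ := by
    rw [LinearMap.range_eq_top]
    rintro ⟨_, x, rfl⟩
    obtain ⟨n, hn, m, hm, rfl⟩ := hdec x
    refine ⟨⟨m, hm⟩, Subtype.ext ?_⟩
    show T m = T (n + m)
    have : T n = 0 := hn
    rw [map_add, this, zero_add]
  let e := ContinuousLinearEquiv.ofBijective T₁ hinj hsurj
  have he : ∀ y : R, T (e.symm y : H) = y := by
    intro y
    have := congrArg Subtype.val (e.apply_symm_apply y)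
    exact this
  have hPN : ∀ x, T (N.starProjection x) = 0 := fun x => N.starProjection_apply_mem x
  have hxm : ∀ x, x - N.starProjection x = (Nᗮ).starProjection x := fun x =>
    sub_eq_of_eq_add' (N.starProjection_add_starProjection_orthogonal x).symm
  have hxr : ∀ x, x - (Rᗮ).starProjection x = R.starProjection x := fun x =>
    sub_eq_of_eq_add (R.starProjection_add_starProjection_orthogonal x).symm
  have hRT : ∀ x, R.starProjection (T x) = T x := fun x =>
    R.starProjection_eq_self_iff.2 (LinearMap.mem_range_self (T : H →ₗ[ℂ] H) x)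
  refine ⟨(Nᗮ).subtypeL ∘L (e.symm : R →L[ℂ] (Nᗮ : Submodule ℂ H)) ∘L
    (R.starProjection.codRestrict R fun x => R.starProjection_apply_mem x),
    N.starProjection, (Rᗮ).starProjection, ?_, ?_, ?_, ?_, hPN, ?_, ?_, ?_, ?_, ?_⟩
  · intro x
    rw [hxr]
    exact he _
  · intro x
    rw [hxm]
    show ((e.symm (⟨R.starProjection (T x), R.starProjection_apply_mem _⟩ : R) : (Nᗮ : Submodule ℂ H)) : H) = _
    have h1 : (⟨R.starProjection (T x), R.starProjection_apply_mem _⟩ : R) =
        e ⟨(Nᗮ).starProjection x, (Nᗮ).starProjection_apply_mem x⟩ := by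
      apply Subtype.ext
      show R.starProjection (T x) = T ((Nᗮ).starProjection x)
      rw [hRT, ← hxm, map_sub, hPN, sub_zero]
    rw [h1, e.symm_apply_apply]
  · intro x
    rw [N.starProjection_apply_eq_zero_iff]
    exact Subtype.coe_prop _
  · intro x
    show ((e.symm (⟨R.starProjection ((Rᗮ).starProjection x), R.starProjection_apply_mem _⟩ : R) :
      (Nᗮ : Submodule ℂ H)) : H) = 0
    have h1 : (⟨R.starProjection ((Rᗮ).starProjection x), R.starProjection_apply_mem _⟩ : R) = 0 := by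
      apply Subtype.ext
      show R.starProjection ((Rᗮ).starProjection x) = 0
      rw [R.starProjection_apply_eq_zero_iff]
      exact (Rᗮ).starProjection_apply_mem x
    rw [h1, map_zero]
    rfl
  · intro x
    have h1 := hxr (T x)
    rw [hRT] at h1
    exact sub_eq_self.mp h1
  · intro x y
    exact N.starProjection_isSymmetric x y
  · intro x y
    exact (Rᗮ).starProjection_isSymmetric x y
  · exact N.range_starProjection
  · exact (Rᗮ).range_starProjection

/-- Schauder's theorem in a Hilbert space. -/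
lemma compact_adjoint (K : H →L[ℂ] H) (hK : IsCompactOperator K) :
    IsCompactOperator (ContinuousLinearMap.adjoint K : H →L[ℂ] H) := by
  set L := ContinuousLinearMap.adjoint K with hL
  have hKL : IsCompactOperator (K ∘L L : H →L[ℂ] H) := hK.comp_clm L
  change IsCompactOperator (L : H →ₗ[ℂ] H)
  rw [isCompactOperator_iff_isCompact_closure_image_closedBall (L : H →ₗ[ℂ] H) one_pos,
    isCompact_iff_totallyBounded_isComplete]
  refine ⟨TotallyBounded.closure ?_, isClosed_closure.isComplete⟩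
  have htb : TotallyBounded ((K ∘L L : H →L[ℂ] H) '' Metric.closedBall 0 1) := by
    obtain ⟨C, hC, hC'⟩ := hKL.image_closedBall_subset_compact (f := ((K ∘L L : H →L[ℂ] H) : H →ₗ[ℂ] H)) 1
    exact hC.totallyBounded.subset hC'
  refine Metric.totallyBounded_of_finite_discretization fun ε hε => ?_
  obtain ⟨t, htf, ht⟩ := Metric.totallyBounded_iff.mp htb (ε ^ 2 / 8) (by positivity)
  have hF : ∀ x : ((L : H →ₗ[ℂ] H) '' Metric.closedBall 0 1 : Set H), ∃ z : t, ∃ y : H, ‖y‖ ≤ 1 ∧
      L y = x ∧ dist (K (L y)) z < ε ^ 2 / 8 := by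
    rintro ⟨_, y, hy, rfl⟩
    have h1 := ht ⟨y, hy, rfl⟩
    rw [Set.mem_iUnion₂] at h1
    obtain ⟨z, hz, hz'⟩ := h1
    exact ⟨⟨z, hz⟩, y, by simpa using hy, rfl, hz'⟩
  choose F y hy1 hy2 hy3 using hF
  refine ⟨t, htf.fintype, F, fun a b hab => ?_⟩
  have h1 : dist (K (L (y a))) (K (L (y b))) < ε ^ 2 / 4 := by
    have := dist_triangle_right (K (L (y a))) (K (L (y b))) (F a : H)
    have h2 := hy3 a
    have h3 := hy3 b
    rw [← hab] at h3
    linarith
  have h2 : ‖L (y a - y b)‖ ^ 2 ≤ ‖K (L (y a - y b))‖ * ‖y a - y b‖ := by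
    have h3 : ⟪L (y a - y b), L (y a - y b)⟫_ℂ = ⟪K (L (y a - y b)), y a - y b⟫_ℂ := by
      rw [hL, ContinuousLinearMap.adjoint_inner_right]
    have h4 := norm_inner_le_norm (𝕜 := ℂ) (K (L (y a - y b))) (y a - y b)
    rw [← h3, inner_self_eq_norm_sq_to_K, norm_pow] at h4
    simpa using h4
  have h3 : ‖y a - y b‖ ≤ 2 := (norm_sub_le _ _).trans (by linarith [hy1 a, hy1 b])
  have h4 : ‖K (L (y a - y b))‖ < ε ^ 2 / 4 := by
    rw [map_sub, map_sub, ← dist_eq_norm]
    exact h1
  have h5 : ‖L (y a - y b)‖ ^ 2 < ε ^ 2 := by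
    have := norm_nonneg (K (L (y a - y b)))
    have := norm_nonneg (y a - y b)
    nlinarith
  rw [dist_eq_norm, ← hy2 a, ← hy2 b, ← map_sub]
  exact lt_of_pow_lt_pow_left₀ 2 hε.le h5

lemma finrank_coker (T : H →L[ℂ] H) (hT : IsFredholmOp T) :
    finrank ℂ (H ⧸ LinearMap.range (T : H →ₗ[ℂ] H)) =
      finrank ℂ ((LinearMap.range (T : H →ₗ[ℂ] H))ᗮ : Submodule ℂ H) ∧
    FiniteDimensional ℂ ((LinearMap.range (T : H →ₗ[ℂ] H))ᗮ : Submodule ℂ H) := by
  have : CompleteSpace (LinearMap.range (T : H →ₗ[ℂ] H)) := hT.closed.completeSpace_coe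
  have e := Submodule.quotientEquivOfIsCompl _ _
    (Submodule.isCompl_orthogonal
      (K := LinearMap.range (T : H →ₗ[ℂ] H)))
  have := hT.coker
  exact ⟨e.finrank_eq, e.finiteDimensional⟩

/-- One direction, for positive index. -/
lemma positive_index (T G P Q : H →L[ℂ] H) (hTG : ∀ x, T (G x) = x - Q x)
    (hGT : ∀ x, G (T x) = x - P x) (hPG : ∀ x, P (G x) = 0) (hTP : ∀ x, T (P x) = 0)
    (hPfin : FiniteDimensional ℂ (LinearMap.range (P : H →ₗ[ℂ] H)))
    (hQfin : FiniteDimensional ℂ (LinearMap.range (Q : H →ₗ[ℂ] H)))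
    (hlt : finrank ℂ (LinearMap.range (Q : H →ₗ[ℂ] H)) < finrank ℂ (LinearMap.range (P : H →ₗ[ℂ] H)))
    (K₁ K₂ : H →L[ℂ] H) (h₁ : IsCompactOperator K₁) (h₂ : IsCompactOperator K₂)
    (hcomm : ∀ x, (T + K₁) ((T + K₂) x) = (T + K₂) ((T + K₁) x)) :
    ∃ x, x ≠ 0 ∧ (T + K₁) x = 0 ∧ (T + K₂) x = 0 := by
  have key := fun t : ℂ => ker_perturb T G P Q (K₁ + t • (K₁ - K₂)) hTG hGT hPG hTP hPfin hQfin hlt
    (h₁.add ((h₁.sub h₂).smul t))
  have e : ∀ t : ℂ, (T + K₁) + t • (K₁ - K₂) = T + (K₁ + t • (K₁ - K₂)) := fun t => add_assoc _ _ _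
  have hA : ∀ x, (T + K₁) ((K₁ - K₂) x) = (K₁ - K₂) ((T + K₁) x) := by
    intro x
    have h3 : ∀ y, (K₁ - K₂) y = (T + K₁) y - (T + K₂) y := fun y => by
      simp only [add_apply, sub_apply]; abel
    rw [h3, h3, map_sub, hcomm]
  have hB : ∀ t : ℂ, ∃ x, x ≠ 0 ∧ (T + K₁) x + t • (K₁ - K₂) x = 0 := by
    intro t
    obtain ⟨x, hx0, hx⟩ := (key t).2
    refine ⟨x, hx0, ?_⟩
    rw [← hx]
    simp only [add_apply, smul_apply]
    abel
  obtain ⟨x, hx0, hx1, hx2⟩ := joint_kernel (T + K₁) (K₁ - K₂) (h₁.sub h₂) hA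
    (fun t => by rw [e]; exact (key t).1) hB
  refine ⟨x, hx0, hx1, ?_⟩
  have h3 : (T + K₂) x = (T + K₁) x - (K₁ - K₂) x := by
    simp only [add_apply, sub_apply]; abel
  rw [h3, hx1, hx2, sub_zero]

theorem main (T : H →L[ℂ] H) (hT : IsFredholmOp T) :
    (∃ K₁ K₂ : H →L[ℂ] H, IsCompactOperator K₁ ∧ IsCompactOperator K₂ ∧
      OpInvertiblePair (T + K₁) (T + K₂)) ↔
    finrank ℂ (LinearMap.ker (T : H →ₗ[ℂ] H)) = finrank ℂ (H ⧸ LinearMap.range (T : H →ₗ[ℂ] H)) := by
  obtain ⟨G, P, Q, hTG, hGT, hPG, hGQ, hTP, hQT, hPs, hQs, hPr, hQr⟩ := exists_geninv T hT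
  obtain ⟨hfr, hfin⟩ := finrank_coker T hT
  have hker := hT.ker
  have hPfin : FiniteDimensional ℂ (LinearMap.range (P : H →ₗ[ℂ] H)) := by rw [hPr]; exact hker
  have hQfin : FiniteDimensional ℂ (LinearMap.range (Q : H →ₗ[ℂ] H)) := by rw [hQr]; exact hfin
  rw [hfr, ← hPr, ← hQr]
  constructor
  · rintro ⟨K₁, K₂, h₁, h₂, hinv⟩
    by_contra hne
    rcases lt_or_gt_of_ne hne with hlt | hlt
    · -- negative index
      set ad := fun A : H →L[ℂ] H => (ContinuousLinearMap.adjoint A : H →L[ℂ] H) with had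
      have hadj : ∀ (A : H →L[ℂ] H) x y, ⟪ad A x, y⟫_ℂ = ⟪x, A y⟫_ℂ := fun A x y =>
        ContinuousLinearMap.adjoint_inner_left A y x
      have h1 : ∀ x, ad T (ad G x) = x - P x := by
        intro x
        refine ext_inner_right ℂ fun y => ?_
        rw [hadj, hadj, hGT, inner_sub_left, inner_sub_right, hPs]
      have h2 : ∀ x, ad G (ad T x) = x - Q x := by
        intro x
        refine ext_inner_right ℂ fun y => ?_
        rw [hadj, hadj, hTG, inner_sub_left, inner_sub_right, hQs]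
      have h3 : ∀ x, Q (ad G x) = 0 := by
        intro x
        refine ext_inner_right ℂ fun y => ?_
        rw [hQs, hadj, hGQ, inner_zero_right, inner_zero_left]
      have h4 : ∀ x, ad T (Q x) = 0 := by
        intro x
        refine ext_inner_right ℂ fun y => ?_
        rw [hadj, hQs, hQT, inner_zero_right, inner_zero_left]
      have hsum : ∀ K : H →L[ℂ] H, ad (T + K) = ad T + ad K := fun K => map_add _ _ _
      obtain ⟨x, hx0, hx1, hx2⟩ := positive_index (ad T) (ad G) Q P h1 h2 h3 h4 hQfin hPfin hlt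
        (ad K₁) (ad K₂) (compact_adjoint K₁ h₁) (compact_adjoint K₂ h₂) (by
          intro x
          rw [← hsum, ← hsum]
          refine ext_inner_right ℂ fun y => ?_
          rw [hadj, hadj, hadj, hadj, hinv.comm])
      rw [← hsum] at hx1 hx2
      obtain ⟨u, v, huv⟩ := hinv.surj x
      refine hx0 (inner_self_eq_zero (𝕜 := ℂ).mp ?_)
      nth_rewrite 2 [← huv]
      rw [inner_add_right, ← hadj, ← hadj, hx1, hx2, inner_zero_left, inner_zero_left, add_zero]
    · -- positive index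
      obtain ⟨x, hx0, hx1, hx2⟩ := positive_index T G P Q hTG hGT hPG hTP hPfin hQfin hlt K₁ K₂ h₁ h₂
        hinv.comm
      exact hx0 (hinv.inj x hx1 hx2)
  · intro heq
    have e := LinearEquiv.ofFinrankEq _ _ heq
    let P' : H →L[ℂ] LinearMap.range (P : H →ₗ[ℂ] H) :=
      P.codRestrict _ fun x => LinearMap.mem_range_self (P : H →ₗ[ℂ] H) x
    let K : H →L[ℂ] H := (LinearMap.range (Q : H →ₗ[ℂ] H)).subtypeL ∘L
      (LinearMap.toContinuousLinearMap (e : LinearMap.range (P : H →ₗ[ℂ] H) →ₗ[ℂ]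
        LinearMap.range (Q : H →ₗ[ℂ] H))) ∘L P'
    have hK : ∀ x, K x = (e (P' x) : H) := fun x => rfl
    have hPP : ∀ x, P (P x) = P x := by
      intro x
      have h := hGT (P x)
      rw [hTP, map_zero] at h
      exact (sub_eq_zero.mp h.symm).symm
    have hQQ : ∀ x, Q (Q x) = Q x := by
      intro x
      have h := hTG (Q x)
      rw [hGQ, map_zero] at h
      exact (sub_eq_zero.mp h.symm).symm
    have hQK : ∀ x, Q (K x) = K x := by
      intro x
      rw [hK]
      obtain ⟨u, hu⟩ := (e (P' x)).2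
      rw [← hu]
      exact hQQ u
    have hinj : ∀ x, (T + K) x = 0 → x = 0 := by
      intro x hx
      have h1 : T x + K x = 0 := hx
      have h2 : K x = 0 := by
        have := congrArg Q h1
        rwa [map_add, hQT, hQK, zero_add, map_zero] at this
      have h3 : P' x = 0 := e.injective (Subtype.ext (by rw [← hK, h2, map_zero]; rfl))
      have h4 : P x = 0 := congrArg Subtype.val h3
      have h5 : T x = 0 := by rw [h2, add_zero] at h1; exact h1
      have h6 := hGT x
      rw [h5, map_zero, h4, sub_zero] at h6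
      exact h6.symm
    have hsurj : ∀ y, ∃ x, (T + K) x = y := by
      intro y
      obtain ⟨⟨n, w, hw⟩, hn⟩ := e.surjective ⟨Q y, LinearMap.mem_range_self (Q : H →ₗ[ℂ] H) y⟩
      have hPn : P n = n := by
        have hw' : P w = n := hw
        rw [← hw', hPP]
      refine ⟨G y + n, ?_⟩
      show T (G y + n) + K (G y + n) = y
      have h1 : T n = 0 := by rw [← hPn, hTP]
      have h2 : P' (G y + n) = ⟨n, w, hw⟩ := by
        apply Subtype.ext
        show P (G y + n) = n
        rw [map_add, hPG, zero_add, hPn]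
      rw [map_add, h1, add_zero, hTG, hK, h2, hn]
      show y - Q y + Q y = y
      abel
    have hKc : IsCompactOperator K := by
      have hp : ProperSpace (LinearMap.range (P : H →ₗ[ℂ] H)) := FiniteDimensional.proper ℂ _
      have : IsCompactOperator P' := isCompactOperator_of_locallyCompactSpace_dom _
      exact this.clm_comp ((LinearMap.range (Q : H →ₗ[ℂ] H)).subtypeL ∘L
        (LinearMap.toContinuousLinearMap (e : LinearMap.range (P : H →ₗ[ℂ] H) →ₗ[ℂ]
          LinearMap.range (Q : H →ₗ[ℂ] H))))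
    refine ⟨K, K, hKc, hKc, fun x => rfl, fun x hx _ => hinj x hx, fun y => ?_, fun x y hxy => ?_⟩
    · obtain ⟨x, hx⟩ := hsurj y
      exact ⟨x, 0, by rw [map_zero, add_zero, hx]⟩
    · obtain ⟨z, hz⟩ := hsurj x
      have h1 : y = x := sub_eq_zero.mp (hinj _ (by rw [map_sub, hxy, sub_self]))
      exact ⟨z, hz.symm, by rw [h1, hz]⟩

theorem main' (T : H →L[ℂ] H) (hT : IsFredholmOp T) : HasInvertiblePerturbation T ↔ nul T = codim T := by
  refine Iff.trans ⟨?_, ?_⟩ (main T hT)
  · rintro ⟨K₁, K₂, h₁, h₂, h⟩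
    exact ⟨K₁, K₂, h₁, h₂, ⟨h.comm, h.inj, h.surj, h.exact⟩⟩
  · rintro ⟨K₁, K₂, h₁, h₂, h⟩
    exact ⟨K₁, K₂, h₁, h₂, ⟨h.comm, h.inj, h.surj, h.exact⟩⟩

end Hilbert

/-! ### An operator of nonzero index -/

/-- The Hilbert space `ℓ²`. -/
noncomputable abbrev Lp2 := lp (fun _ : ℕ => ℂ) 2

lemma two_pos' : 0 < (2 : ENNReal).toReal := by norm_num

/-- The backward shift. -/
noncomputable def bshift : Lp2 →L[ℂ] Lp2 :=
  LinearMap.mkContinuous
    { toFun := fun x => ⟨fun n => x (n + 1), by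
        have h : Summable fun n => ‖x n‖ ^ (2 : ENNReal).toReal := (lp.memℓp x).summable two_pos'
        exact (memℓp_gen_iff two_pos').2
          ((summable_nat_add_iff (f := fun n => ‖x n‖ ^ (2 : ENNReal).toReal) 1).2 h)⟩
      map_add' := fun x y => rfl
      map_smul' := fun c x => rfl } 1 (by
    intro x
    rw [one_mul]
    have h : Summable fun n => ‖x n‖ ^ (2 : ENNReal).toReal := (lp.memℓp x).summable two_pos'
    refine le_of_pow_le_pow_left₀ two_ne_zero (norm_nonneg _) ?_
    have e : ∀ y : Lp2, ‖y‖ ^ 2 = ∑' n, ‖y n‖ ^ (2 : ENNReal).toReal := by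
      intro y
      rw [← lp.norm_rpow_eq_tsum two_pos']
      norm_num
    rw [e, e, h.tsum_eq_zero_add]
    exact le_add_of_nonneg_left (by positivity))

lemma bshift_apply (x : Lp2) (n : ℕ) : bshift x n = x (n + 1) := rfl

lemma bshift_surj : LinearMap.range (bshift : Lp2 →ₗ[ℂ] Lp2) = ⊤ := by
  rw [LinearMap.range_eq_top]
  intro y
  let f : ℕ → ℂ := fun n => Nat.casesOn n 0 fun n => y n
  have hf : Memℓp f 2 := by
    have h : Summable fun n => ‖y n‖ ^ (2 : ENNReal).toReal := (lp.memℓp y).summable two_pos'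
    exact (memℓp_gen_iff two_pos').2
      ((summable_nat_add_iff (f := fun n => ‖f n‖ ^ (2 : ENNReal).toReal) 1).1 h)
  exact ⟨⟨f, hf⟩, lp.ext rfl⟩

lemma bshift_ker : finrank ℂ (LinearMap.ker (bshift : Lp2 →ₗ[ℂ] Lp2)) = 1 := by
  have hs0 : (lp.single 2 0 (1 : ℂ) : Lp2) 0 = 1 :=
    lp.single_apply_self (E := fun _ : ℕ => ℂ) 2 0 (1 : ℂ)
  have hs1 : ∀ n : ℕ, (lp.single 2 0 (1 : ℂ) : Lp2) (n + 1) = 0 := fun n =>
    lp.single_apply_ne (E := fun _ : ℕ => ℂ) 2 0 (1 : ℂ) (Nat.succ_ne_zero n)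
  have hmem : (lp.single 2 0 (1 : ℂ) : Lp2) ∈ LinearMap.ker (bshift : Lp2 →ₗ[ℂ] Lp2) := by
    rw [LinearMap.mem_ker]
    exact lp.ext (funext fun n => hs1 n)
  refine finrank_eq_one (⟨lp.single 2 0 (1 : ℂ), hmem⟩ : LinearMap.ker (bshift : Lp2 →ₗ[ℂ] Lp2))
    (fun h => ?_) fun x => ⟨(x : Lp2) 0, Subtype.ext (lp.ext (funext fun n => ?_))⟩
  · have h1 := congrArg (fun z : LinearMap.ker (bshift : Lp2 →ₗ[ℂ] Lp2) => (z : Lp2) 0) h
    have h2 : (lp.single 2 0 (1 : ℂ) : Lp2) 0 = 0 := h1
    rw [hs0] at h2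
    exact one_ne_zero h2
  · show (x : Lp2) 0 * (lp.single 2 0 (1 : ℂ) : Lp2) n = (x : Lp2) n
    cases n with
    | zero => rw [hs0, mul_one]
    | succ n =>
      rw [hs1, mul_zero]
      have h1 : bshift (x : Lp2) = 0 := x.2
      have h2 := bshift_apply (x : Lp2) n
      rw [h1] at h2
      exact h2

lemma bshift_fredholm : IsFredholmOp bshift where
  closed := by rw [bshift_surj]; exact isClosed_univ
  ker := FiniteDimensional.of_finrank_pos (by rw [bshift_ker]; exact one_pos)
  coker := by rw [bshift_surj]; infer_instance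

/-- Let `T` be a Fredholm operator on a complex Hilbert space. Then compact operators `K₁`, `K₂` such that
`T + K₁` and `T + K₂` commute and form an invertible pair exist if and only if `T` has index zero; and
there is a Fredholm operator for which they do not exist. -/
theorem result.{u} :
    (∀ (H : Type u) [NormedAddCommGroup H] [InnerProductSpace ℂ H] [CompleteSpace H] (T : H →L[ℂ] H),
      IsFredholmOp T → (HasInvertiblePerturbation T ↔ nul T = codim T)) ∧
    ∃ (H : Type) (_ : NormedAddCommGroup H) (_ : InnerProductSpace ℂ H) (_ : CompleteSpace H)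
      (T : H →L[ℂ] H), IsFredholmOp T ∧ ¬ HasInvertiblePerturbation T := by
  refine ⟨fun H _ _ _ T hT => main' T hT, Lp2, inferInstance, inferInstance, inferInstance, bshift,
    bshift_fredholm, fun h => ?_⟩
  have h1 := (main' bshift bshift_fredholm).1 h
  unfold nul codim at h1
  rw [bshift_ker, bshift_surj] at h1
  have : finrank ℂ (Lp2 ⧸ (⊤ : Submodule ℂ Lp2)) = 0 := finrank_zero_of_subsingleton
  rw [this] at h1
  exact one_ne_zero h1

end Pool.Agent.Results.MP_b56e9d_an.IndexZeroOnly
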